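import Pool.Agent.Helper54.TD.Defs
import Mathlib.LinearAlgebra.Matrix.GeneralLinearGroup.Card

/-!
# TD module B4: counting tuples by their span
-/

set_option autoImplicit false

namespace Pool.Agent.Helper86.TDB4

open Finset Module

section

variable {F : Type} [Field F]

/-- the rows of a matrix span iff the columns are independent -/
theorem span_top_iff (s m : ℕ) (N : Matrix (Fin s) (Fin m) F) :
    Submodule.span F (Set.range fun i => N i) = ⊤ ↔
      LinearIndependent F (fun j : Fin m => fun i : Fin s => N i j) := by
  have h1 : N.rank = finrank F (Submodule.span F (Set.range N.row)) := N.rank_eq_finrank_span_row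
  have h2 : N.rank = finrank F (Submodule.span F (Set.range N.col)) := N.rank_eq_finrank_span_cols
  have e1 : (N.row : Fin s → Fin m → F) = fun i => N i := rfl
  have e2 : (N.col : Fin m → Fin s → F) = fun j i => N i j := rfl
  rw [e1] at h1
  rw [e2] at h2
  rw [linearIndependent_iff_card_eq_finrank_span, Set.finrank, ← h2, h1, Fintype.card_fin]
  constructor
  · intro h
    rw [h, finrank_top, Module.finrank_fintype_fun_eq_card, Fintype.card_fin]
  · intro h
    refine Submodule.eq_top_of_finrank_eq ?_
    rw [← h, Module.finrank_fintype_fun_eq_card, Fintype.card_fin]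

variable {V : Type} [AddCommGroup V] [Module F V]

/-- tuples with span `A` and linearly independent tuples -/
theorem card_span [Finite F] [FiniteDimensional F V] (s : ℕ) (A : Submodule F V) :
    Nat.card {v : Fin s → V // Submodule.span F (Set.range v) = A} =
      Nat.card {M : Fin (finrank F A) → (Fin s → F) // LinearIndependent F M} := by
  classical
  set m := finrank F A with hm
  set b : Basis (Fin m) F A := finBasis F A with hb
  -- the correspondence
  let toM : (Fin s → A) ≃ (Fin m → Fin s → F) :=
    { toFun := fun u j i => b.equivFun (u i) j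
      invFun := fun M i => b.equivFun.symm (fun j => M j i)
      left_inv := fun u => by
        funext i
        exact b.equivFun.symm_apply_apply (u i)
      right_inv := fun M => by
        funext j i
        show b.equivFun (b.equivFun.symm (fun j => M j i)) j = M j i
        rw [LinearEquiv.apply_symm_apply] }
  have key : ∀ u : Fin s → A, (Submodule.span F (Set.range fun i => (u i : V)) = A ↔
      LinearIndependent F (toM u)) := by
    intro u
    have h1 : Submodule.span F (Set.range fun i => (u i : V)) = A ↔
        Submodule.span F (Set.range u) = ⊤ := by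
      have h2 : (Set.range fun i => (u i : V)) = A.subtype '' Set.range u := by
        rw [← Set.range_comp]
        rfl
      rw [h2, ← Submodule.map_span]
      constructor
      · intro h
        rw [eq_top_iff]
        intro x _
        have : (x : V) ∈ Submodule.map A.subtype (Submodule.span F (Set.range u)) := by
          rw [h]
          exact x.2
        obtain ⟨y, hy, hyx⟩ := Submodule.mem_map.1 this
        have : y = x := Subtype.ext hyx
        rwa [← this]
      · intro h
        rw [h, Submodule.map_subtype_top]
    have h3 : Submodule.span F (Set.range u) = ⊤ ↔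
        Submodule.span F (Set.range fun i => b.equivFun (u i)) = ⊤ := by
      have h4 : (Set.range fun i => b.equivFun (u i)) =
          (b.equivFun : A →ₗ[F] (Fin m → F)) '' Set.range u := by
        rw [← Set.range_comp]
        rfl
      rw [h4, ← Submodule.map_span]
      constructor
      · intro h
        rw [h, Submodule.map_top, LinearEquiv.range]
      · intro h
        rw [eq_top_iff]
        intro x _
        have : b.equivFun x ∈ Submodule.map (b.equivFun : A →ₗ[F] (Fin m → F))
            (Submodule.span F (Set.range u)) := by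
          rw [h]
          exact Submodule.mem_top
        obtain ⟨y, hy, hyx⟩ := Submodule.mem_map.1 this
        have : y = x := b.equivFun.injective hyx
        rwa [← this]
    rw [h1, h3]
    exact span_top_iff s m (fun i j => b.equivFun (u i) j)
  refine Nat.card_congr ?_
  refine
    { toFun := fun v => ⟨toM fun i => ⟨v.1 i,
          v.2.le (Submodule.subset_span (Set.mem_range_self i))⟩, (key _).1 v.2⟩
      invFun := fun M => ⟨fun i => ((toM.symm M.1 i : A) : V), (key _).2 (by
        rw [Equiv.apply_symm_apply]
        exact M.2)⟩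
      left_inv := fun v => by
        apply Subtype.ext
        funext i
        show ((toM.symm (toM _) i : A) : V) = v.1 i
        rw [Equiv.symm_apply_apply]
      right_inv := fun M => by
        apply Subtype.ext
        show toM (fun i => ⟨((toM.symm M.1 i : A) : V), _⟩) = M.1
        exact toM.apply_symm_apply M.1 }

end

end Pool.Agent.Helper86.TDB4

namespace Pool.Agent.Helper54.PT

open Finset Module Pool.Agent.Helper86.TDB4

section Lagr

variable {ℓ : ℕ} [Fact ℓ.Prime]

/-- B4: counting tuples by their span -/
theorem pow_eq_nsub (s k : ℕ) : ((ℓ : ℝ) ^ s) ^ k =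
    ∑ m ∈ range (k + 1), (nsub ℓ k m : ℝ) * ∏ i ∈ range m, ((ℓ : ℝ) ^ s - (ℓ : ℝ) ^ i) := by
  classical
  have hℓ : 1 < ℓ := (Fact.out : ℓ.Prime).one_lt
  -- the number of independent tuples
  have hg : ∀ m : ℕ, (Nat.card {M : Fin m → (Fin s → ZMod ℓ) // LinearIndependent (ZMod ℓ) M} : ℝ) =
      ∏ i ∈ range m, ((ℓ : ℝ) ^ s - (ℓ : ℝ) ^ i) := by
    intro m
    rcases le_or_gt m s with hms | hms
    · rw [card_linearIndependent (K := ZMod ℓ) (V := Fin s → ZMod ℓ)
        (by rw [Module.finrank_fintype_fun_eq_card, Fintype.card_fin]; exact hms),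
        Module.finrank_fintype_fun_eq_card, Fintype.card_fin, ZMod.card,
        Fin.prod_univ_eq_prod_range (fun i => ℓ ^ s - ℓ ^ i) m, Nat.cast_prod]
      refine Finset.prod_congr rfl fun i hi => ?_
      rw [Nat.cast_sub (Nat.pow_le_pow_right hℓ.le ((mem_range.1 hi).le.trans hms)),
        Nat.cast_pow, Nat.cast_pow]
    · have h1 : IsEmpty {M : Fin m → (Fin s → ZMod ℓ) // LinearIndependent (ZMod ℓ) M} := by
        refine ⟨fun M => ?_⟩
        have := M.2.fintype_card_le_finrank
        rw [Module.finrank_fintype_fun_eq_card, Fintype.card_fin, Fintype.card_fin] at this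
        omega
      rw [Nat.card_of_isEmpty, Nat.cast_zero]
      exact (Finset.prod_eq_zero (mem_range.2 hms) (sub_self _)).symm
  letI : Fintype (Submodule (ZMod ℓ) (Fin k → ZMod ℓ)) := Fintype.ofFinite _
  -- total number of tuples
  have h2 : Nat.card (Fin s → Fin k → ZMod ℓ) = ∑ A : Submodule (ZMod ℓ) (Fin k → ZMod ℓ),
      Nat.card {v : Fin s → Fin k → ZMod ℓ // Submodule.span (ZMod ℓ) (Set.range v) = A} := by
    rw [← Nat.card_sigma]
    exact Nat.card_congr
      (Equiv.sigmaFiberEquiv fun v : Fin s → Fin k → ZMod ℓ => Submodule.span (ZMod ℓ) (Set.range v)).symm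
  have h3 : (Nat.card (Fin s → Fin k → ZMod ℓ) : ℝ) = ((ℓ : ℝ) ^ s) ^ k := by
    rw [Nat.card_eq_fintype_card]
    simp only [Fintype.card_pi, Finset.prod_const, Finset.card_univ, Fintype.card_fin, ZMod.card]
    push_cast
    rw [← pow_mul, ← pow_mul, mul_comm]
  rw [← h3, h2, Nat.cast_sum]
  have h4 : ∀ A : Submodule (ZMod ℓ) (Fin k → ZMod ℓ),
      (Nat.card {v : Fin s → Fin k → ZMod ℓ // Submodule.span (ZMod ℓ) (Set.range v) = A} : ℝ) =
        ∏ i ∈ range (finrank (ZMod ℓ) A), ((ℓ : ℝ) ^ s - (ℓ : ℝ) ^ i) := by
    intro A
    rw [card_span, hg]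
  rw [Finset.sum_congr rfl fun A _ => h4 A]
  have h5 : ∀ A : Submodule (ZMod ℓ) (Fin k → ZMod ℓ), finrank (ZMod ℓ) A ∈ range (k + 1) := by
    intro A
    have := Submodule.finrank_le A
    rw [Module.finrank_fintype_fun_eq_card, Fintype.card_fin] at this
    exact mem_range.2 (by omega)
  rw [← Finset.sum_fiberwise_of_maps_to (s := univ) (t := range (k + 1))
    (g := fun A : Submodule (ZMod ℓ) (Fin k → ZMod ℓ) => finrank (ZMod ℓ) A) (fun A _ => h5 A)]
  refine Finset.sum_congr rfl fun m _ => ?_
  have h6 : ∀ A ∈ univ.filter (fun A : Submodule (ZMod ℓ) (Fin k → ZMod ℓ) => finrank (ZMod ℓ) A = m),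
      ∏ i ∈ range (finrank (ZMod ℓ) A), ((ℓ : ℝ) ^ s - (ℓ : ℝ) ^ i) =
        ∏ i ∈ range m, ((ℓ : ℝ) ^ s - (ℓ : ℝ) ^ i) := by
    intro A hA
    rw [(mem_filter.1 hA).2]
  rw [Finset.sum_congr rfl h6, Finset.sum_const, nsmul_eq_mul]
  congr 2
  unfold nsub
  rw [Nat.card_eq_fintype_card, Fintype.card_subtype]

end Lagr

end Pool.Agent.Helper54.PT
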