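import Pool.Agent.Helper54.TD.Defs

/-!
# TD module B56: the number of antisymmetric matrices
-/

set_option autoImplicit false

namespace Pool.Agent.Helper86.TDB56

open Finset

/-- the pairs `i < j` -/
def ltEquiv (m : ℕ) : {p : Fin m × Fin m // p.1 < p.2} ≃ (Σ j : Fin m, Fin j.1) where
  toFun p := ⟨p.1.2, ⟨p.1.1.1, p.2⟩⟩
  invFun x := ⟨(⟨x.2.1, x.2.2.trans x.1.2⟩, x.1), x.2.2⟩
  left_inv p := rfl
  right_inv x := rfl

theorem card_lt (m : ℕ) : Fintype.card {p : Fin m × Fin m // p.1 < p.2} = m.choose 2 := by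
  rw [Fintype.card_congr (ltEquiv m), Fintype.card_sigma]
  simp only [Fintype.card_fin]
  rw [Fin.sum_univ_eq_sum_range (fun i => i) m, Finset.sum_range_id, Nat.choose_two_right]

/-- antisymmetric matrices and their entries above the diagonal -/
def asEquiv {R : Type} [AddCommGroup R] (h2 : ∀ x : R, x + x = 0 → x = 0) (m : ℕ) :
    {S : Fin m → Fin m → R // ∀ i j, S i j + S j i = 0} ≃
      ({p : Fin m × Fin m // p.1 < p.2} → R) where
  toFun S p := S.1 p.1.1 p.1.2
  invFun g := ⟨fun i j => if h : i < j then g ⟨(i, j), h⟩ else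
      if h' : j < i then -g ⟨(j, i), h'⟩ else 0, fun i j => by
    rcases lt_trichotomy i j with h | h | h
    · simp [h, not_lt.2 h.le]
    · simp [h]
    · simp [h, not_lt.2 h.le]⟩
  left_inv S := by
    apply Subtype.ext
    funext i j
    rcases lt_trichotomy i j with h | h | h
    · simp [h]
    · subst h
      have := h2 _ (S.2 i i)
      simp [this]
    · have := S.2 i j
      simp only [not_lt.2 h.le, dite_false, h, dite_true]
      exact (eq_neg_of_add_eq_zero_left this).symm
  right_inv g := by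
    funext p
    have := p.2
    simp [this]

end Pool.Agent.Helper86.TDB56

namespace Pool.Agent.Helper54.PT

open Finset Module Pool.Agent.Helper86.TDB56

section Lagr

variable {ℓ : ℕ} [Fact ℓ.Prime]

/-- B5: the number of antisymmetric matrices, `ℓ` odd -/
theorem gk_odd (hℓ : ℓ ≠ 2) (m : ℕ) : gk ℓ m = ℓ ^ m.choose 2 := by
  have hp : ℓ.Prime := Fact.out
  have h2 : (2 : ZMod ℓ) ≠ 0 := by
    intro h
    have h3 : ((2 : ℕ) : ZMod ℓ) = 0 := by exact_mod_cast h
    rw [ZMod.natCast_eq_zero_iff] at h3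
    exact hℓ ((Nat.prime_dvd_prime_iff_eq hp Nat.prime_two).1 h3)
  have h4 : ∀ x : ZMod ℓ, x + x = 0 → x = 0 := by
    intro x hx
    rw [← two_mul] at hx
    exact (mul_eq_zero.1 hx).resolve_left h2
  unfold gk
  rw [Nat.card_congr (asEquiv h4 m), Nat.card_eq_fintype_card, Fintype.card_fun, ZMod.card,
    card_lt]

/-- B6: the number of symmetric matrices -/
theorem gk_two (m : ℕ) : gk 2 m = 2 ^ (m + 1).choose 2 := by
  unfold gk
  have e : {S : Fin m → Fin m → ZMod 2 // ∀ i j, S i j + S j i = 0} ≃
      {S : Fin m → Fin m → ZMod 2 // ∀ i j, S i j = S j i} := by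
    refine Equiv.subtypeEquivRight fun S => forall_congr' fun i => forall_congr' fun j => ?_
    generalize S i j = x
    generalize S j i = y
    revert x y
    decide
  rw [Nat.card_congr e, Nat.card_congr Sym2.lift, Nat.card_eq_fintype_card, Fintype.card_fun,
    ZMod.card, Sym2.card, Fintype.card_fin]

end Lagr

end Pool.Agent.Helper54.PT
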