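import Pool.Agent.Helper54.TD.Defs

/-!
# TD module E12: the polynomials `fK`
-/

set_option autoImplicit false

namespace Pool.Agent.Helper86.TDE12

open Polynomial Finset Pool.Agent.Helper54.PT

theorem fK_succ (Q : ℝ) (K : ℕ) : fK Q (K + 1) =
    fK Q K * (C ((Q ^ (K + 1) - 1)⁻¹) * (C (Q ^ (K + 1)) - X)) := by
  unfold fK
  rw [Finset.prod_range_succ]

theorem fK_mul (Q : ℝ) (K : ℕ) : fK Q K * (X - 1) =
    C ((-1) ^ K * (∏ i ∈ range K, (Q ^ (i + 1) - 1))⁻¹) * Pj Q (K + 1) := by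
  induction K with
  | zero =>
    unfold fK Pj
    simp
  | succ K ih =>
    rw [fK_succ]
    have h1 : Pj Q (K + 1 + 1) = Pj Q (K + 1) * (X - C (Q ^ (K + 1))) := by
      unfold Pj
      rw [Finset.prod_range_succ (n := K + 1)]
    have h2 : fK Q K * (C ((Q ^ (K + 1) - 1)⁻¹) * (C (Q ^ (K + 1)) - X)) * (X - 1) =
        (fK Q K * (X - 1)) * (C ((Q ^ (K + 1) - 1)⁻¹) * (C (Q ^ (K + 1)) - X)) := by ring
    rw [h2, ih, h1, Finset.prod_range_succ, mul_inv, pow_succ]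
    simp only [map_mul, map_neg, map_one, map_pow]
    ring

end Pool.Agent.Helper86.TDE12

namespace Pool.Agent.Helper54.PT

open Polynomial Finset Pool.Agent.Helper86.TDE12

section Prob

/-- E1: the polynomials `fK` in terms of `Pj` -/
theorem fK_eq (Q : ℝ) (hQ : 1 < Q) (K : ℕ) : fK Q K =
    ∑ j ∈ range (K + 1), C ((-1) ^ j * (∏ i ∈ range j, (Q ^ (i + 1) - 1))⁻¹) * Pj Q j := by
  induction K with
  | zero =>
    unfold fK Pj
    simp
  | succ K ih =>
    rw [Finset.sum_range_succ, ← ih]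
    have hd : Q ^ (K + 1) - 1 ≠ 0 := by
      have := one_lt_pow₀ hQ (Nat.succ_ne_zero K)
      simp only [Nat.succ_eq_add_one] at this
      linarith
    have h1 := fK_mul Q K
    have h2 : C ((-1) ^ (K + 1) * (∏ i ∈ range (K + 1), (Q ^ (i + 1) - 1))⁻¹) * Pj Q (K + 1) =
        -C ((Q ^ (K + 1) - 1)⁻¹) * (fK Q K * (X - 1)) := by
      rw [h1, Finset.prod_range_succ, mul_inv, pow_succ]
      simp only [map_mul, map_neg, map_one, map_pow]
      ring
    rw [h2, fK_succ]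
    have h3 : (C ((Q ^ (K + 1) - 1)⁻¹) * (C (Q ^ (K + 1)) - X) : ℝ[X]) =
        1 - C ((Q ^ (K + 1) - 1)⁻¹) * (X - 1) := by
      have h4 : (1 : ℝ[X]) = C ((Q ^ (K + 1) - 1)⁻¹) * C (Q ^ (K + 1) - 1) := by
        rw [← C_mul, inv_mul_cancel₀ hd, C_1]
      have h5 : (C (Q ^ (K + 1) - 1) : ℝ[X]) = C (Q ^ (K + 1)) - 1 := by
        rw [C_sub, C_1]
      rw [h5] at h4
      linear_combination -h4
    rw [h3]
    ring

/-- E2: the sign of `fK` -/
theorem fK_le (Q : ℝ) (hQ : 1 < Q) (K : ℕ) (hK : Odd K) (s : ℕ) :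
    (fK Q K).eval (Q ^ s) ≤ if s = 0 then 1 else 0 := by
  have hpos : ∀ i : ℕ, 0 < Q ^ (i + 1) - 1 := by
    intro i
    have := one_lt_pow₀ hQ (Nat.succ_ne_zero i)
    simp only [Nat.succ_eq_add_one] at this
    linarith
  have he : (fK Q K).eval (Q ^ s) =
      ∏ i ∈ range K, (Q ^ (i + 1) - 1)⁻¹ * (Q ^ (i + 1) - Q ^ s) := by
    unfold fK
    rw [eval_prod]
    refine Finset.prod_congr rfl fun i _ => ?_
    simp
  rw [he]
  split_ifs with h0
  · subst h0
    refine le_of_eq (Finset.prod_eq_one fun i _ => ?_)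
    rw [pow_zero, inv_mul_cancel₀ (hpos i).ne']
  · rcases le_or_gt s K with h1 | h1
    · refine le_of_eq (Finset.prod_eq_zero (i := s - 1) (mem_range.2 (by omega)) ?_)
      rw [Nat.sub_add_cancel (by omega), sub_self, mul_zero]
    · have h2 : ∏ i ∈ range K, (Q ^ (i + 1) - 1)⁻¹ * (Q ^ (i + 1) - Q ^ s) =
          ∏ i ∈ range K, (-1) * ((Q ^ (i + 1) - 1)⁻¹ * (Q ^ s - Q ^ (i + 1))) := by
        refine Finset.prod_congr rfl fun i _ => ?_
        ring
      rw [h2, Finset.prod_mul_distrib, Finset.prod_const, card_range, hK.neg_one_pow]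
      have h3 : 0 ≤ ∏ i ∈ range K, ((Q ^ (i + 1) - 1)⁻¹ * (Q ^ s - Q ^ (i + 1))) := by
        refine Finset.prod_nonneg fun i hi => mul_nonneg (inv_pos.2 (hpos i)).le ?_
        have := pow_le_pow_right₀ hQ.le (show i + 1 ≤ s by have := mem_range.1 hi; omega)
        linarith
      linarith

end Prob

end Pool.Agent.Helper54.PT
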