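import Pool.Agent.Helper54.TD.Defs

/-!
# TD module E3: the factorial moments to the base `4`
-/

set_option autoImplicit false

namespace Pool.Agent.Helper86.TDE3

open Polynomial Finset Pool.Agent.Helper54.PT

/-- the functional as a linear map -/
noncomputable def EL (N : ℕ → ℝ) : ℝ[X] →ₗ[ℝ] ℝ :=
  Polynomial.lsum fun k => LinearMap.mulRight ℝ (N k)

theorem EL_eq (N : ℕ → ℝ) (p : ℝ[X]) : Lam N p = EL N p := by
  unfold Lam EL
  rw [Polynomial.lsum_apply]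
  rfl

/-- products shifted by one -/
noncomputable def fj (Q : ℝ) (j : ℕ) : ℝ[X] := ∏ i ∈ range j, (X - C (Q ^ (i + 1)))

theorem X1_fj (Q : ℝ) (j : ℕ) : (X - 1) * fj Q j = Pj Q (j + 1) := by
  unfold fj Pj
  rw [Finset.prod_range_succ', pow_zero, C_1, mul_comm]

theorem fj_comp (Q : ℝ) (j : ℕ) : (fj Q j).comp (C Q * X) = C (Q ^ j) * Pj Q j := by
  unfold fj Pj
  rw [Polynomial.prod_comp]
  have h : ∀ i ∈ range j, (X - C (Q ^ (i + 1)) : ℝ[X]).comp (C Q * X) =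
      C Q * (X - C (Q ^ i)) := by
    intro i _
    rw [sub_comp, X_comp, C_comp, pow_succ, C_mul]
    ring
  rw [Finset.prod_congr rfl h, Finset.prod_mul_distrib, Finset.prod_const, card_range, C_pow]

variable {N : ℕ → ℝ} (hN : ∀ j, Lam N (Pj 2 j) = 2 ^ (j + 1).choose 2)

include hN

theorem stepA_fj (n j : ℕ) : EL N ((X - 1) * (X ^ n * fj 2 j)) =
    2 * EL N ((X ^ n * fj 2 j).comp (C 2 * X)) := by
  induction n generalizing j with
  | zero =>
    rw [pow_zero, one_mul, X1_fj, fj_comp, ← EL_eq, hN, ← smul_eq_C_mul, map_smul, ← EL_eq, hN,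
      smul_eq_mul]
    have h : (j + 1 + 1).choose 2 = (j + 1).choose 2 + (j + 1) := by
      rw [Nat.choose_succ_succ' (j + 1) 1]
      simp
      ring
    rw [h]
    ring
  | succ n ih =>
    have h1 : (X ^ (n + 1) * fj 2 j : ℝ[X]) =
        X ^ n * fj 2 (j + 1) + C (2 ^ (j + 1)) * (X ^ n * fj 2 j) := by
      have : (fj 2 (j + 1) : ℝ[X]) = fj 2 j * (X - C (2 ^ (j + 1))) := by
        unfold fj
        rw [Finset.prod_range_succ]
      rw [this]
      ring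
    have h2 : ((X - 1) * (X ^ n * fj 2 (j + 1) + C (2 ^ (j + 1)) * (X ^ n * fj 2 j)) : ℝ[X]) =
        (X - 1) * (X ^ n * fj 2 (j + 1)) + C (2 ^ (j + 1)) * ((X - 1) * (X ^ n * fj 2 j)) := by
      ring
    have h3 : ((X ^ n * fj 2 (j + 1) + C (2 ^ (j + 1)) * (X ^ n * fj 2 j) : ℝ[X]).comp
        (C 2 * X)) = (X ^ n * fj 2 (j + 1)).comp (C 2 * X) +
          C (2 ^ (j + 1)) * (X ^ n * fj 2 j).comp (C 2 * X) := by
      rw [add_comp, mul_comp (C _), C_comp]
    have hC : ∀ (c : ℝ) (p : ℝ[X]), EL N (C c * p) = c * EL N p := fun c p => by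
      rw [← smul_eq_C_mul, map_smul, smul_eq_mul]
    rw [h1, h2, h3, map_add, map_add, hC, hC, ih, ih]
    ring

theorem stepA (f : ℝ[X]) : EL N ((X - 1) * f) = 2 * EL N (f.comp (C 2 * X)) := by
  induction f using Polynomial.induction_on' with
  | add p q hp hq => rw [mul_add, map_add, hp, hq, add_comp, map_add, mul_add]
  | monomial n c =>
    have h := stepA_fj hN n 0
    have h0 : (fj 2 0 : ℝ[X]) = 1 := by simp [fj]
    rw [h0, mul_one] at h
    rw [← C_mul_X_pow_eq_monomial]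
    have h1 : ((X - 1) * (C c * X ^ n) : ℝ[X]) = c • ((X - 1) * X ^ n) := by
      rw [smul_eq_C_mul]
      ring
    have h2 : ((C c * X ^ n : ℝ[X]).comp (C 2 * X)) = c • (X ^ n : ℝ[X]).comp (C 2 * X) := by
      rw [mul_comp, C_comp, smul_eq_C_mul]
    rw [h1, h2, map_smul, map_smul, h, smul_eq_mul, smul_eq_mul]
    ring

theorem stepB (h : ℝ[X]) : EL N ((X - 1) * ((X - 2) * h)) = 8 * EL N (h.comp (C 4 * X)) := by
  rw [stepA hN]
  have h1 : (((X - 2) * h : ℝ[X]).comp (C 2 * X)) = (2 : ℝ) • ((X - 1) * h.comp (C 2 * X)) := by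
    rw [mul_comp, sub_comp, X_comp, smul_eq_C_mul]
    have : ((2 : ℝ[X]).comp (C 2 * X)) = 2 := by
      have h2 : (2 : ℝ[X]) = C 2 := rfl
      rw [h2, C_comp]
    rw [this]
    have h2 : (2 : ℝ[X]) = C 2 := rfl
    rw [h2]
    ring
  rw [h1, map_smul, stepA hN, comp_assoc]
  have h3 : ((C 2 * X : ℝ[X]).comp (C 2 * X)) = C 4 * X := by
    rw [mul_comp, C_comp, X_comp, ← mul_assoc, ← C_mul]
    norm_num
  rw [h3, smul_eq_mul]
  ring

theorem rec4 (j : ℕ) : EL N (Pj 4 (j + 2)) + (4 ^ (j + 1) - 2) * EL N (Pj 4 (j + 1)) =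
    8 * (4 ^ j * EL N (Pj 4 j)) := by
  have h1 := stepB hN (fj 4 j)
  rw [fj_comp, ← smul_eq_C_mul, map_smul, smul_eq_mul] at h1
  rw [← h1]
  have h2 : ((X - 1) * ((X - 2) * fj 4 j) : ℝ[X]) =
      Pj 4 (j + 2) + ((4 ^ (j + 1) - 2 : ℝ)) • Pj 4 (j + 1) := by
    have h3 : (Pj 4 (j + 2) : ℝ[X]) = Pj 4 (j + 1) * (X - C (4 ^ (j + 1))) := by
      unfold Pj
      rw [Finset.prod_range_succ (n := j + 1)]
    rw [h3, ← X1_fj 4 j, smul_eq_C_mul, C_sub]
    have h4 : (2 : ℝ[X]) = C 2 := rfl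
    rw [h4]
    ring
  rw [h2, map_add, map_smul, smul_eq_mul]

end Pool.Agent.Helper86.TDE3

namespace Pool.Agent.Helper54.PT

open Polynomial Finset Pool.Agent.Helper86.TDE3

section Prob

/-- E3: the factorial moments to the base `4` -/
theorem Lam_Pj4 (N : ℕ → ℝ) (hN : ∀ j, Lam N (Pj 2 j) = 2 ^ (j + 1).choose 2) (j : ℕ) :
    Lam N (Pj 4 j) = 2 ^ j := by
  have h0 : EL N (Pj 4 0) = 1 := by
    have h1 := hN 0
    have h2 : (Pj 4 0 : ℝ[X]) = Pj 2 0 := by simp [Pj]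
    rw [h2, ← EL_eq, h1]
    norm_num
  have h1 : EL N (Pj 4 1) = 2 := by
    have h1 := hN 1
    have h2 : (Pj 4 1 : ℝ[X]) = Pj 2 1 := by simp [Pj]
    rw [h2, ← EL_eq, h1]
    norm_num
  rw [EL_eq]
  induction j using Nat.twoStepInduction with
  | zero => simpa using h0
  | one => simpa using h1
  | more j ih1 ih2 =>
    have h3 := rec4 hN j
    rw [ih1, ih2] at h3
    have h4 : (4 : ℝ) ^ j = 2 ^ j * 2 ^ j := by
      rw [← mul_pow]
      norm_num
    have h5 : EL N (Pj 4 (j + 2)) = 8 * (4 ^ j * 2 ^ j) - (4 ^ (j + 1) - 2) * 2 ^ (j + 1) := by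
      linarith
    rw [h5, pow_succ 4 j, h4]
    ring

end Prob

end Pool.Agent.Helper54.PT
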