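import Mathlib

/-!
# TD module E4: the series for odd characteristic (an Euler identity)
-/

set_option autoImplicit false

namespace Pool.Agent.Helper86.TDE4

open Finset Filter Topology

/-- the coefficients `1 / prod_{1 <= i <= j} (1 - q^i)` -/
noncomputable def ac (q : ℝ) (j : ℕ) : ℝ := (∏ i ∈ range j, (1 - q ^ (i + 1)))⁻¹

section

variable {q : ℝ} (h0 : 0 < q) (h1 : q < 1)

include h0 h1

theorem fac_pos (i : ℕ) : 0 < 1 - q ^ (i + 1) := by
  have := pow_lt_one₀ h0.le h1 (Nat.succ_ne_zero i)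
  simp only [Nat.succ_eq_add_one] at this
  linarith

theorem ac_pos (j : ℕ) : 0 < ac q j :=
  inv_pos.2 (Finset.prod_pos fun i _ => fac_pos h0 h1 i)

theorem ac_succ (j : ℕ) : ac q (j + 1) * (1 - q ^ (j + 1)) = ac q j := by
  unfold ac
  rw [Finset.prod_range_succ, mul_inv]
  have := (fac_pos h0 h1 j).ne'
  field_simp

theorem summ {z : ℝ} (hz : |z| < 1) : Summable fun j => ac q j * z ^ j := by
  by_cases hz0 : z = 0
  · subst hz0
    refine summable_of_ne_finset_zero (s := {0}) fun j hj => ?_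
    rw [Finset.mem_singleton] at hj
    rw [zero_pow hj, mul_zero]
  refine summable_of_ratio_test_tendsto_lt_one hz (Eventually.of_forall fun j => ?_) ?_
  · exact mul_ne_zero (ac_pos h0 h1 j).ne' (pow_ne_zero _ hz0)
  · have h2 : ∀ j, ‖ac q (j + 1) * z ^ (j + 1)‖ / ‖ac q j * z ^ j‖ =
        (1 - q ^ (j + 1))⁻¹ * |z| := by
      intro j
      have h3 := ac_pos h0 h1 (j + 1)
      have h4 := fac_pos h0 h1 j
      rw [← ac_succ h0 h1 j, norm_mul, norm_mul, norm_mul, pow_succ, norm_mul,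
        Real.norm_of_nonneg h3.le, Real.norm_of_nonneg h4.le, Real.norm_eq_abs z]
      have h5 : ‖z ^ j‖ ≠ 0 := norm_ne_zero_iff.2 (pow_ne_zero _ hz0)
      field_simp
    simp_rw [h2]
    have h6 : Tendsto (fun j : ℕ => q ^ (j + 1)) atTop (𝓝 0) :=
      (tendsto_pow_atTop_nhds_zero_of_lt_one h0.le h1).comp (tendsto_add_atTop_nat 1)
    have h7 : Tendsto (fun j : ℕ => (1 - q ^ (j + 1))⁻¹ * |z|) atTop (𝓝 ((1 - 0)⁻¹ * |z|)) :=
      ((tendsto_const_nhds.sub h6).inv₀ (by norm_num)).mul_const _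
    simpa using h7

/-- the function -/
noncomputable def fz (q z : ℝ) : ℝ := ∑' j, ac q j * z ^ j

theorem fz_eq {z : ℝ} (hz : |z| < 1) : (1 - z) * fz q z = fz q (q * z) := by
  have hqz : |q * z| < 1 := by
    rw [abs_mul, abs_of_pos h0]
    nlinarith [abs_nonneg z]
  have hs := summ h0 h1 hz
  have hs' := summ h0 h1 hqz
  have e1 : fz q z - fz q (q * z) = ∑' j, ac q j * z ^ j * (1 - q ^ j) := by
    unfold fz
    rw [← hs.tsum_sub hs']
    refine tsum_congr fun j => ?_
    rw [mul_pow]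
    ring
  have hs2 : Summable fun j => ac q j * z ^ j * (1 - q ^ j) := by
    refine (hs.sub hs').congr fun j => ?_
    rw [mul_pow]
    ring
  have e2 : ∑' j, ac q j * z ^ j * (1 - q ^ j) = z * fz q z := by
    rw [hs2.tsum_eq_zero_add]
    simp only [pow_zero, sub_self, mul_zero, zero_add]
    unfold fz
    rw [← tsum_mul_left]
    refine tsum_congr fun j => ?_
    rw [← ac_succ h0 h1 j, pow_succ]
    ring
  linarith [e1, e2]

theorem fz_prod (n : ℕ) : fz q (-q) =
    (∏ i ∈ range n, (1 + q ^ (i + 1))⁻¹) * fz q (-q ^ (n + 1)) := by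
  induction n with
  | zero => simp
  | succ n ih =>
    have hz : |(-q ^ (n + 1))| < 1 := by
      rw [abs_neg, abs_of_pos (pow_pos h0 _)]
      exact pow_lt_one₀ h0.le h1 (Nat.succ_ne_zero n)
    have h2 := fz_eq h0 h1 hz
    have h3 : q * -q ^ (n + 1) = -q ^ (n + 1 + 1) := by ring
    rw [h3] at h2
    rw [ih, Finset.prod_range_succ, ← h2]
    have h4 : (1 + q ^ (n + 1)) ≠ 0 := by positivity
    field_simp
    ring

theorem fz_tendsto : Tendsto (fun n : ℕ => fz q (-q ^ (n + 1))) atTop (𝓝 1) := by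
  have hs : Summable fun j => ac q j * q ^ j := summ h0 h1 (by rwa [abs_of_pos h0])
  have hs1 : Summable fun j => ac q (j + 1) * q ^ (j + 1) :=
    (summable_nat_add_iff (f := fun j => ac q j * q ^ j) 1).2 hs
  set Cc : ℝ := ∑' j, ac q (j + 1) * q ^ (j + 1) with hC
  have hb : ∀ n : ℕ, |fz q (-q ^ (n + 1)) - 1| ≤ q ^ n * Cc := by
    intro n
    have hz : |(-q ^ (n + 1))| < 1 := by
      rw [abs_neg, abs_of_pos (pow_pos h0 _)]
      exact pow_lt_one₀ h0.le h1 (Nat.succ_ne_zero n)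
    have hsz := summ h0 h1 hz
    have e1 : fz q (-q ^ (n + 1)) - 1 = ∑' j, ac q (j + 1) * (-q ^ (n + 1)) ^ (j + 1) := by
      unfold fz
      rw [hsz.tsum_eq_zero_add]
      simp [ac]
    rw [e1, hC, ← tsum_mul_left, ← Real.norm_eq_abs]
    refine tsum_of_norm_bounded (hs1.mul_left (q ^ n)).hasSum fun j => ?_
    rw [norm_mul, Real.norm_of_nonneg (ac_pos h0 h1 _).le, norm_pow, norm_neg,
      Real.norm_of_nonneg (pow_pos h0 _).le]
    have h2 : (q ^ (n + 1)) ^ (j + 1) ≤ q ^ n * q ^ (j + 1) := by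
      rw [← pow_mul, ← pow_add]
      refine pow_le_pow_of_le_one h0.le h1.le ?_
      nlinarith
    calc ac q (j + 1) * (q ^ (n + 1)) ^ (j + 1) ≤ ac q (j + 1) * (q ^ n * q ^ (j + 1)) :=
          mul_le_mul_of_nonneg_left h2 (ac_pos h0 h1 _).le
      _ = q ^ n * (ac q (j + 1) * q ^ (j + 1)) := by ring
  rw [tendsto_iff_norm_sub_tendsto_zero]
  have h5 : Tendsto (fun n : ℕ => q ^ n * Cc) atTop (𝓝 0) := by
    have := (tendsto_pow_atTop_nhds_zero_of_lt_one h0.le h1).mul_const Cc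
    rwa [zero_mul] at this
  exact squeeze_zero (fun n => norm_nonneg _) hb h5

theorem multip : Multipliable fun i : ℕ => (1 + q ^ (i + 1))⁻¹ := by
  have h2 : (fun i : ℕ => (1 + q ^ (i + 1))⁻¹) = fun i : ℕ => 1 + (-(q ^ (i + 1) / (1 + q ^ (i + 1)))) := by
    funext i
    have h4 : (1 + q ^ (i + 1)) ≠ 0 := by positivity
    field_simp
    ring
  rw [h2]
  refine multipliable_one_add_of_summable ?_
  refine Summable.of_nonneg_of_le (fun i => norm_nonneg _) (fun i => ?_)
    ((summable_geometric_of_lt_one h0.le h1).mul_left q)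
  rw [norm_neg, Real.norm_of_nonneg (by positivity)]
  have h3 : q ^ (i + 1) / (1 + q ^ (i + 1)) ≤ q ^ (i + 1) :=
    div_le_self (by positivity) (by linarith [pow_pos h0 (i + 1)])
  calc q ^ (i + 1) / (1 + q ^ (i + 1)) ≤ q ^ (i + 1) := h3
    _ = q * q ^ i := by ring

theorem fz_value : fz q (-q) = ∏' i : ℕ, (1 + q ^ (i + 1))⁻¹ := by
  have h2 := (multip h0 h1).hasProd.tendsto_prod_nat
  have h3 := h2.mul (fz_tendsto h0 h1)
  rw [mul_one] at h3
  refine tendsto_nhds_unique ?_ h3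
  refine tendsto_const_nhds.congr fun n => ?_
  exact fz_prod h0 h1 n

end

end Pool.Agent.Helper86.TDE4

namespace Pool.Agent.Helper54.PT

open Finset Filter Topology Pool.Agent.Helper86.TDE4

/-- E4: the series for `ℓ` odd -/
theorem series_odd (Q : ℝ) (hQ : 1 < Q) :
    Tendsto (fun K : ℕ => ∑ j ∈ range (K + 1),
      (-1) ^ j * (∏ i ∈ range j, (Q ^ (i + 1) - 1))⁻¹ * Q ^ j.choose 2) atTop
      (𝓝 (∏' i : ℕ, (1 + (Q ^ (i + 1))⁻¹)⁻¹)) := by
  have hQ0 : 0 < Q := by linarith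
  set q : ℝ := Q⁻¹ with hq
  have h0 : 0 < q := inv_pos.2 hQ0
  have h1 : q < 1 := inv_lt_one_of_one_lt₀ hQ
  have hterm : ∀ j : ℕ, (-1) ^ j * (∏ i ∈ range j, (Q ^ (i + 1) - 1))⁻¹ * Q ^ j.choose 2 =
      ac q j * (-q) ^ j := by
    intro j
    have h2 : ∏ i ∈ range j, (Q ^ (i + 1) - 1) =
        Q ^ (j + 1).choose 2 * ∏ i ∈ range j, (1 - q ^ (i + 1)) := by
      induction j with
      | zero => simp
      | succ j ih =>
        rw [Finset.prod_range_succ, ih, Finset.prod_range_succ]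
        have h3 : Q ^ (j + 1) - 1 = Q ^ (j + 1) * (1 - q ^ (j + 1)) := by
          rw [hq, inv_pow]
          field_simp
        rw [h3]
        have h4 : (j + 1 + 1).choose 2 = (j + 1).choose 2 + (j + 1) := by
          rw [Nat.choose_succ_succ' (j + 1) 1]
          simp
          ring
        rw [h4, pow_add]
        ring
    rw [h2]
    unfold ac
    have h5 : (j + 1).choose 2 = j.choose 2 + j := by
      rw [Nat.choose_succ_succ' j 1]
      simp
      ring
    have h6 : ∏ i ∈ range j, (1 - q ^ (i + 1)) ≠ 0 :=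
      (Finset.prod_pos fun i _ => fac_pos h0 h1 i).ne'
    rw [h5, pow_add, neg_pow q j, hq, inv_pow]
    rw [hq] at h6
    field_simp
  simp_rw [hterm]
  have h7 : Tendsto (fun K : ℕ => ∑ j ∈ range (K + 1), ac q j * (-q) ^ j) atTop
      (𝓝 (fz q (-q))) := by
    have hs := (summ h0 h1 (z := -q) (by rwa [abs_neg, abs_of_pos h0])).hasSum.tendsto_sum_nat
    exact hs.comp (tendsto_add_atTop_nat 1)
  rw [fz_value h0 h1] at h7
  simpa [hq] using h7

end Pool.Agent.Helper54.PT
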